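import Pool.Agent.PSS.StmtsS4

/-! Squad PSS, block S4, row AQC: the Brauer quotient `A(Q)` is in the class for `C_E(Q)`. -/

set_option autoImplicit false

open scoped BigOperators

noncomputable section

namespace Pool.Agent.PSS.H25

open Pool.Agent.PSS

/-- the Casimir element of a relative Frobenius system is central -/
theorem cas_central {R V A K : Type} [CommRing R] [CommGroup V] [Fintype V] [Ring A]
    [Algebra R A] [Fintype K] {α : V →* A} {lam : A →ₗ[R] R} {x y : K → A}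
    (h : RF R α lam x y) (b : A) : b * ∑ k, x k * y k = (∑ k, x k * y k) * b := by
  have h1 : b * ∑ k, x k * y k =
      ∑ k, ∑ j, ∑ v, lam (α v⁻¹ * y j * (b * x k)) • (x j * α v * y k) := by
    rw [Finset.mul_sum]
    refine Finset.sum_congr rfl fun k _ => ?_
    have e := congrArg (fun a => a * y k) (h.e1 (b * x k))
    simp only [Finset.sum_mul, smul_mul_assoc] at e
    rw [← mul_assoc, ← e]
  have h2 : (∑ k, x k * y k) * b =
      ∑ j, ∑ k, ∑ v, lam (y j * b * (x k * α v)) • (x j * (α v⁻¹ * y k)) := by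
    rw [Finset.sum_mul]
    refine Finset.sum_congr rfl fun j _ => ?_
    have e := congrArg (fun a => x j * a) (h.e2 (y j * b))
    simp only [Finset.mul_sum, mul_smul_comm] at e
    rw [mul_assoc, ← e]
  rw [h1, h2, Finset.sum_comm]
  refine Finset.sum_congr rfl fun j _ => Finset.sum_congr rfl fun k _ => ?_
  rw [← Equiv.sum_comp (Equiv.inv V)]
  refine Finset.sum_congr rfl fun v _ => ?_
  rw [Equiv.inv_apply, inv_inv, mul_assoc (α v), h.sym (α v), ← mul_assoc (x j)]
  simp only [mul_assoc]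

theorem mul_mem_cw {R V A : Type} [CommRing R] [CommGroup V] [Ring A] [Algebra R A]
    {α : V →* A} {Q : Subgroup V} {a b : A} (ha : a ∈ FxR (cw R α) Q)
    (hb : b ∈ FxR (cw R α) Q) : a * b ∈ FxR (cw R α) Q := by
  rw [mem_cw] at ha hb ⊢
  intro q hq
  rw [← mul_assoc, ha q hq, mul_assoc, hb q hq, mul_assoc]

/-- **AQC** -/
theorem aqc (haqp : AqpStmt) (haqr : AqrStmt) (haqv : AqvStmt) (hblw : BlwStmt) : AqcStmt := by
  intro ℓ _ F V E A B _ _ _ _ _ _ _ _ _ _ φ α Q N hV hE hcl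
  classical
  have hℓ0 : (ℓ : F) = 0 := CharP.cast_eq_zero F ℓ
  obtain ⟨lam, K, _, x, y, hrf, u, hu⟩ := hcl.rt
  obtain ⟨hper, huni⟩ := haqp ℓ F V E A B φ α Q N hℓ0 hV hcl.per hcl.uni
  obtain ⟨lam', K', _, x', y', hrf', -, hcard⟩ :=
    haqr ℓ F V E A B K φ α lam x y Q N hℓ0 hV hcl.uni hcl.per hrf
  -- the Casimir element
  obtain ⟨z, hz⟩ : ∃ z, z = ∑ k, x k * y k := ⟨_, rfl⟩
  rw [← hz] at hu hcard
  have hzc : ∀ b, b * z = z * b := by
    intro b
    rw [hz]
    exact cas_central hrf b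
  have hzu : z * u = 1 := by rw [← hzc, hu]
  have huc : ∀ b, u * b = b * u := by
    intro b
    calc u * b = u * b * (z * u) := by rw [hzu, mul_one]
      _ = u * (b * z) * u := by simp only [mul_assoc]
      _ = (u * z) * b * u := by rw [hzc]; simp only [mul_assoc]
      _ = b * u := by rw [hu, one_mul]
  have hzm : z ∈ FxR (cw F α) Q := mem_cw.2 fun q _ => hzc _
  have hum : u ∈ FxR (cw F α) Q := mem_cw.2 fun q _ => (huc _).symm
  have hβ : N.β u * N.β z = 1 := by
    rw [← N.mul u hum z hzm, hu, N.one]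
  -- cardinalities
  have hE0 : ((Nat.card E : ℕ) : F) ≠ 0 := by
    intro h
    exact hE ((CharP.cast_eq_zero_iff F ℓ _).1 h)
  have hC0 : ((Nat.card (CE φ Q) : ℕ) : F) ≠ 0 := by
    intro h
    exact hE (((CharP.cast_eq_zero_iff F ℓ _).1 h).trans (Subgroup.card_subgroup_dvd_card _))
  have hC : ¬ ℓ ∣ Nat.card (CE φ Q) := fun h =>
    hE (h.trans (Subgroup.card_subgroup_dvd_card _))
  have hcard' : (Nat.card (CE φ Q) : F) • N.β z = (Nat.card E : F) • ∑ k, x' k * y' k := by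
    rw [Nat.cast_smul_eq_nsmul, Nat.cast_smul_eq_nsmul]
    exact hcard
  have := hcl.fin
  have hfin : FiniteDimensional F B := by
    refine Module.Finite.of_surjective N.β fun b => ?_
    obtain ⟨a, -, ha⟩ := N.sur b
    exact ⟨a, ha⟩
  obtain ⟨Ω, _, _, bf, cf, hfr, -⟩ := hcl.per
  refine hblw ℓ F V (CE φ Q) B (φ.comp (CE φ Q).subtype) N.aqh hV hC hfin hper huni
    ⟨lam', K', inferInstance, x', y', hrf',
      ((Nat.card (CE φ Q) : F)⁻¹ * (Nat.card E : F)) • N.β u, ?_⟩ ?_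
  · rw [smul_mul_assoc, mul_smul, ← mul_smul_comm, ← hcard', mul_smul_comm, hβ, smul_smul,
      inv_mul_cancel₀ hC0, one_smul]
  · intro e he1 he2 he3
    obtain ⟨h1, h2⟩ := haqv ℓ F V A B Ω α bf cf Q ⊤ N hℓ0 hV hfr le_top
    obtain ⟨a, ha, rfl⟩ := h1 e (BKR_le_FxR he3)
    have haQ : a ∈ FxR (cw F α) Q := fun q _ => ha q (Subgroup.mem_top q)
    have haB := ((h2 a ha).2).1 he3
    have hk : a ∈ BKR (cw F α) Q := by
      refine hcl.blk Q a ha ?_ ?_ haB
      · rw [← N.ker _ (Submodule.sub_mem _ (mul_mem_cw haQ haQ) haQ), map_sub, N.mul a haQ a haQ,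
          he1, sub_self]
      · intro a1 ha1
        rw [← N.ker _ (Submodule.sub_mem _ (mul_mem_cw haQ ha1) (mul_mem_cw ha1 haQ)), map_sub,
          N.mul a haQ a1 ha1, N.mul a1 ha1 a haQ, he2, sub_self]
    exact (N.ker a haQ).2 hk

end Pool.Agent.PSS.H25
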