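import Pool.Agent.PSS.StmtsS2

/-! Squad PSS, block S2, row DTR: the trace of a commutator with a connection. -/

set_option autoImplicit false

open scoped BigOperators

noncomputable section

namespace Pool.Agent.PSS.S2.H25

open Pool.Agent.PSS Pool.Agent.PSS.S2

/-- the purely combinatorial part -/
theorem comb {R V K : Type} [CommRing R] [CommGroup V] [Fintype V] [Fintype K]
    (D P : K → K → V → R) (c : V → R) (hc : ∀ u v, c (u * v) = c u + c v)
    (h3 : ∀ k j v, D k j v = ∑ l, ∑ u, D l j u * D k l (u⁻¹ * v))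
    (h4 : ∀ l j u, ∑ k, ∑ v, D k l v * P j k (u * v)⁻¹ = P j l u⁻¹)
    (h5 : ∀ l k v, ∑ j, ∑ u, D l j u * P j k (u * v)⁻¹ = P l k v⁻¹) :
    ∑ k, ∑ j, ∑ v, c v * D k j v * P j k v⁻¹ = 0 := by
  have key : ∑ k, ∑ j, ∑ v, c v * D k j v * P j k v⁻¹ =
      ∑ k, ∑ j, ∑ v, c v * D k j v * P j k v⁻¹ + ∑ k, ∑ j, ∑ v, c v * D k j v * P j k v⁻¹ := by
    have e1 : ∀ k j, ∑ v, c v * D k j v * P j k v⁻¹ =
        ∑ l, ∑ u, ∑ v, (c u + c v) * (D l j u * D k l v * P j k (u * v)⁻¹) := by
      intro k j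
      have e2 : ∀ v, c v * D k j v * P j k v⁻¹ =
          ∑ l, ∑ u, c v * (D l j u * D k l (u⁻¹ * v) * P j k v⁻¹) := by
        intro v
        rw [h3 k j v, Finset.mul_sum, Finset.sum_mul]
        refine Finset.sum_congr rfl fun l _ => ?_
        rw [Finset.mul_sum, Finset.sum_mul]
        refine Finset.sum_congr rfl fun u _ => ?_
        ring
      rw [Finset.sum_congr rfl fun v _ => e2 v, Finset.sum_comm]
      refine Finset.sum_congr rfl fun l _ => ?_
      rw [Finset.sum_comm]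
      refine Finset.sum_congr rfl fun u _ => ?_
      rw [← Equiv.sum_comp (Equiv.mulLeft u)]
      refine Finset.sum_congr rfl fun v _ => ?_
      rw [Equiv.coe_mulLeft, inv_mul_cancel_left, hc]
    have e3 : ∑ k, ∑ j, ∑ l, ∑ u, ∑ v, c u * (D l j u * D k l v * P j k (u * v)⁻¹) =
        ∑ k, ∑ j, ∑ v, c v * D k j v * P j k v⁻¹ := by
      -- sum over k, v first
      have e4 : ∀ j l u, ∑ k, ∑ v, c u * (D l j u * D k l v * P j k (u * v)⁻¹) =
          c u * D l j u * P j l u⁻¹ := by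
        intro j l u
        rw [← h4 l j u, Finset.mul_sum]
        refine Finset.sum_congr rfl fun k _ => ?_
        rw [Finset.mul_sum]
        refine Finset.sum_congr rfl fun v _ => ?_
        ring
      calc ∑ k, ∑ j, ∑ l, ∑ u, ∑ v, c u * (D l j u * D k l v * P j k (u * v)⁻¹)
          = ∑ j, ∑ l, ∑ u, ∑ k, ∑ v, c u * (D l j u * D k l v * P j k (u * v)⁻¹) := by
            rw [Finset.sum_comm]
            refine Finset.sum_congr rfl fun j _ => ?_
            rw [Finset.sum_comm]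
            refine Finset.sum_congr rfl fun l _ => ?_
            rw [Finset.sum_comm]
        _ = ∑ j, ∑ l, ∑ u, c u * D l j u * P j l u⁻¹ := by
            simp only [e4]
        _ = _ := Finset.sum_comm
    have e5 : ∑ k, ∑ j, ∑ l, ∑ u, ∑ v, c v * (D l j u * D k l v * P j k (u * v)⁻¹) =
        ∑ k, ∑ j, ∑ v, c v * D k j v * P j k v⁻¹ := by
      have e6 : ∀ k l v, ∑ j, ∑ u, c v * (D l j u * D k l v * P j k (u * v)⁻¹) =
          c v * D k l v * P l k v⁻¹ := by
        intro k l v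
        rw [← h5 l k v, Finset.mul_sum]
        refine Finset.sum_congr rfl fun j _ => ?_
        rw [Finset.mul_sum]
        refine Finset.sum_congr rfl fun u _ => ?_
        ring
      refine Finset.sum_congr rfl fun k _ => ?_
      rw [Finset.sum_comm]
      refine Finset.sum_congr rfl fun l _ => ?_
      rw [Finset.sum_congr rfl fun j _ => Finset.sum_comm, Finset.sum_comm]
      exact Finset.sum_congr rfl fun v _ => e6 k l v
    conv_lhs =>
      rw [Finset.sum_congr rfl fun k _ => Finset.sum_congr rfl fun j _ => e1 k j]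
    simp only [add_mul, Finset.sum_add_distrib]
    rw [e3, e5]
  exact left_eq_add.mp key

/-- **DTR** -/
theorem dtr : DtrStmt := by
  intro R V A K _ _ _ _ _ _ q α lam x y χ N g hF hN hg
  obtain ⟨p, hp⟩ : ∃ p : R →+* (R ⧸ Ideal.span {q}), ∀ a b : R, Cg q a b ↔ p a = p b := by
    refine ⟨Ideal.Quotient.mk _, fun a b => ?_⟩
    rw [Ideal.Quotient.eq, Ideal.mem_span_singleton']
    constructor
    · rintro ⟨d, hd⟩
      exact ⟨d, by rw [hd, smul_eq_mul, mul_comm]⟩
    · rintro ⟨d, hd⟩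
      exact ⟨d, by rw [← hd, smul_eq_mul, mul_comm]⟩
  have hL : ∀ (L : A →ₗ[R] R) (a b : A), Cg q a b → p (L a) = p (L b) := by
    rintro L a b ⟨d, hd⟩
    rw [← hp]
    exact ⟨L d, by rw [← map_sub, hd, map_smul]⟩
  have hc : ∀ u v, p (χ (u * v)) = p (χ u) + p (χ v) := by
    intro u v
    rw [← map_add, ← hp]
    exact hN.add u v
  have hc1 : p (χ 1) = 0 := by
    have h := hc 1 1
    rw [mul_one] at h
    exact left_eq_add.mp h
  have hci : ∀ v, p (χ v⁻¹) = - p (χ v) := by
    intro v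
    have h := hc v v⁻¹
    rw [mul_inv_cancel, hc1] at h
    exact eq_neg_of_add_eq_zero_right h.symm
  let D : K → K → V → R ⧸ Ideal.span {q} := fun k j v => p (lam (α v⁻¹ * y k * x j))
  let P : K → K → V → R ⧸ Ideal.span {q} := fun j k v => p (lam (α v⁻¹ * y j * g (x k)))
  let M : K → K → V → R ⧸ Ideal.span {q} := fun k j v => p (lam (α v⁻¹ * y k * N (x j)))
  have hcyc : ∀ (v : V) (a b : A), lam (a * (b * α v)) = lam (α v * a * b) := by
    intro v a b
    rw [← mul_assoc, hF.sym, mul_assoc]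
  -- first term
  have h1 : ∀ k, p (lam (y k * N (g (x k)))) =
      ∑ j, ∑ v, P j k v * (M k j v⁻¹ + p (χ v) * D k j v⁻¹) := by
    intro k
    have e := congrArg (fun a => p (lam (y k * N a))) (hF.e1 (g (x k)))
    simp only [map_sum, map_smul, Finset.mul_sum, mul_smul_comm, smul_eq_mul, map_mul] at e
    rw [← e]
    refine Finset.sum_congr rfl fun j _ => Finset.sum_congr rfl fun v _ => ?_
    show _ = p (lam (α v⁻¹ * y j * g (x k))) * _
    congr 1
    have e2 := hL (lam.comp (LinearMap.mulLeft R (y k))) _ _ (hN.lin (x j) v)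
    simp only [LinearMap.comp_apply, LinearMap.mulLeft_apply, mul_add, map_add, mul_smul_comm,
      map_smul, smul_eq_mul, map_mul] at e2
    rw [e2, hcyc, hcyc]
    show _ = p (lam (α v⁻¹⁻¹ * y k * N (x j))) + p (χ v) * p (lam (α v⁻¹⁻¹ * y k * x j))
    rw [inv_inv]
  have h2 : ∀ k, p (lam (y k * g (N (x k)))) = ∑ j, ∑ v, M j k v * P k j v⁻¹ := by
    intro k
    have e := congrArg (fun a => p (lam (y k * g a))) (hF.e1 (N (x k)))
    simp only [map_sum, map_smul, Finset.mul_sum, mul_smul_comm, smul_eq_mul, map_mul] at e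
    rw [← e]
    refine Finset.sum_congr rfl fun j _ => Finset.sum_congr rfl fun v _ => ?_
    show _ = p (lam (α v⁻¹ * y j * N (x k))) * p (lam (α v⁻¹⁻¹ * y k * g (x j)))
    congr 1
    have e2 := hL (lam.comp (LinearMap.mulLeft R (y k))) _ _ (hg (x j) v)
    simp only [LinearMap.comp_apply, LinearMap.mulLeft_apply] at e2
    rw [e2, hcyc, inv_inv]
  have h3 : ∀ k j v, D k j v = ∑ l, ∑ u, D l j u * D k l (u⁻¹ * v) := by
    intro k j v
    have e := congrArg (fun a => p (lam (α v⁻¹ * y k * a))) (hF.e1 (x j))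
    simp only [map_sum, map_smul, Finset.mul_sum, mul_smul_comm, smul_eq_mul, map_mul] at e
    show p (lam (α v⁻¹ * y k * x j)) = _
    rw [← e]
    refine Finset.sum_congr rfl fun l _ => Finset.sum_congr rfl fun u _ => ?_
    show _ = p (lam (α u⁻¹ * y l * x j)) * p (lam (α (u⁻¹ * v)⁻¹ * y k * x l))
    congr 1
    rw [hcyc, mul_inv_rev, inv_inv, mul_comm v⁻¹ u, map_mul α]
    simp only [mul_assoc]
  have h4 : ∀ l j u, ∑ k, ∑ v, D k l v * P j k (u * v)⁻¹ = P j l u⁻¹ := by
    intro l j u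
    have e := congrArg (fun a => p (lam (α u * y j * g a))) (hF.e1 (x l))
    simp only [map_sum, map_smul, Finset.mul_sum, mul_smul_comm, smul_eq_mul, map_mul] at e
    show _ = p (lam (α u⁻¹⁻¹ * y j * g (x l)))
    rw [inv_inv, ← e]
    refine Finset.sum_congr rfl fun k _ => Finset.sum_congr rfl fun v _ => ?_
    show p (lam (α v⁻¹ * y k * x l)) * p (lam (α (u * v)⁻¹⁻¹ * y j * g (x k))) = _
    congr 1
    have e2 := hL (lam.comp (LinearMap.mulLeft R (α u * y j))) _ _ (hg (x k) v)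
    simp only [LinearMap.comp_apply, LinearMap.mulLeft_apply] at e2
    rw [e2, hcyc, inv_inv, mul_comm u v, map_mul α]
    simp only [mul_assoc]
  have h5 : ∀ l k v, ∑ j, ∑ u, D l j u * P j k (u * v)⁻¹ = P l k v⁻¹ := by
    intro l k v
    have e := congrArg (fun a => p (lam (α v * a * g (x k)))) (hF.e2 (y l))
    simp only [map_sum, map_smul, Finset.mul_sum, Finset.sum_mul, mul_smul_comm, smul_mul_assoc,
      smul_eq_mul, map_mul] at e
    show _ = p (lam (α v⁻¹⁻¹ * y l * g (x k)))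
    rw [inv_inv, ← e]
    refine Finset.sum_congr rfl fun j _ => ?_
    rw [← Equiv.sum_comp (Equiv.inv V)]
    refine Finset.sum_congr rfl fun u _ => ?_
    rw [Equiv.inv_apply]
    show p (lam (α u⁻¹⁻¹ * y l * x j)) * p (lam (α (u⁻¹ * v)⁻¹⁻¹ * y j * g (x k))) = _
    rw [inv_inv, inv_inv, hcyc, mul_comm u⁻¹ v, map_mul α]
    simp only [mul_assoc]
  have hC := comb D P (fun v => p (χ v)) hc h3 h4 h5
  rw [hp, map_zero]
  have e0 : p (∑ k, lam (y k * (N (g (x k)) - g (N (x k))))) =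
      ∑ k, p (lam (y k * N (g (x k)))) - ∑ k, p (lam (y k * g (N (x k)))) := by
    rw [map_sum, ← Finset.sum_sub_distrib]
    refine Finset.sum_congr rfl fun k _ => ?_
    rw [mul_sub, map_sub, map_sub]
  rw [e0, Finset.sum_congr rfl fun k _ => h1 k, Finset.sum_congr rfl fun k _ => h2 k]
  simp only [mul_add, Finset.sum_add_distrib]
  have e6 : ∑ k, ∑ j, ∑ v, P j k v * M k j v⁻¹ = ∑ k, ∑ j, ∑ v, M j k v * P k j v⁻¹ := by
    rw [Finset.sum_comm]
    refine Finset.sum_congr rfl fun j _ => Finset.sum_congr rfl fun k _ => ?_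
    rw [← Equiv.sum_comp (Equiv.inv V)]
    refine Finset.sum_congr rfl fun v _ => ?_
    rw [Equiv.inv_apply, inv_inv, mul_comm]
  have e7 : ∑ k, ∑ j, ∑ v, P j k v * (p (χ v) * D k j v⁻¹) =
      - ∑ k, ∑ j, ∑ v, p (χ v) * D k j v * P j k v⁻¹ := by
    simp only [← Finset.sum_neg_distrib]
    refine Finset.sum_congr rfl fun k _ => Finset.sum_congr rfl fun j _ => ?_
    rw [← Equiv.sum_comp (Equiv.inv V)]
    refine Finset.sum_congr rfl fun v _ => ?_
    rw [Equiv.inv_apply, inv_inv, hci]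
    ring
  rw [e6, e7, hC, neg_zero, add_zero, sub_self]

end Pool.Agent.PSS.S2.H25
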