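import Pool.Agent.PSS.StmtsBR

/-! Squad PSS, row LRN: the dimension formula for the algebras in `Lc` (assembly). -/

noncomputable section

namespace Pool.Agent.PSS.BR.H25

open Pool.Agent.PFC (Cz Lcq)
open Pool.Agent.PFE (SG Nt It Tr tj Ctn)
open Pool.Agent.PSS.S5

theorem lrn (hlcp : LcpStmt) (hlkc : LkcStmt) (hrin : Pool.Agent.PFE.RinStmt) : LrnStmt := by
  intro ℓ _ F V C A S S0 _ _ _ _ _ _ _ _ _ _ _ _ _ _ E' α W U _ θ q q0 hW h1 h2 h3 h4 h5 h6 h7
    h8 h9 h10
  classical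
  haveI : Finite (MulAut V) :=
    Finite.of_injective (fun e : MulAut V => (e : V → V)) (fun a b h => MulEquiv.ext (congrFun h))
  haveI : Fintype E' := Fintype.ofFinite E'
  refine hrin ℓ F V E' A W C S S0 E'.subtype (fun Q => ¬ Q ≤ W ∧ ¬ Q ≤ U) α W.subtype U θ q q0
    h4 ?_ hW Subtype.val_injective ?_ ?_ h3 ?_ ?_ h5 ?_ h9 h10
  · refine hlcp ℓ F V E' A E'.subtype α _ h4.pg h8 ?_
    intro Q hQ
    refine hlkc ℓ F V E' A E'.subtype α Q h4.pg h8 ?_
    intro e he
    rw [h4.cf Q hQ e he, map_one]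
  · rw [Subgroup.range_subtype]; exact h1
  · rw [Subgroup.range_subtype]; exact h2
  · exact fun c => h6 c
  · exact fun e => h7 e
  · intro Q hQ
    rw [Subgroup.range_subtype]
    by_contra hc
    push Not at hc
    exact hQ hc

end Pool.Agent.PSS.BR.H25
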